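import Pool.Agent.H71.LW.LiftL
import Pool.Agent.H71.SZ.LiftK
import Pool.Agent.H8.LW.Main

/-! # LWP.FinL : fibre products over `ℙ¹` of surfaces in long Weierstrass form, all characteristics, all coefficients -/

namespace LWP

open H68.BB ES FX SZ LW

private theorem FinL_exp {K : Type} [Field K] {k s c : ℕ} (R : Fin k → Row s c K) :
    altX R = ∑ i : Equiv.Perm (Fin k) × Finset (Fin k × Fin c), (((Equiv.Perm.sign i.1 : ℤ)) ^ c * (-1 : ℤ) ^ i.2.card) •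
      ptX (rep i.2 (fun j => R (i.1 j))) := by
  classical
  rw [Fintype.sum_prod_type]
  unfold altX prodX
  refine Finset.sum_congr rfl fun σ _ => ?_
  rw [Finset.smul_sum]
  refine Finset.sum_congr rfl fun J _ => ?_
  rw [smul_smul]

/-- the origin is a point of the surface -/
theorem OnL_o {K : Type} [Field K] {W : Lm K 2} (hW : W.Ok) : OnL W (o 2 K) := by
  have h0 : ∀ (q : MvPolynomial (Fin 2) K) (m : ℕ), 0 < m → MvPolynomial.IsWeightedHomogeneous W.v q m → ev q (0 : Fin 2 → K) = 0 := by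
    intro q m hm hq
    have h1 := ev_scale (F := K) hq (c := 0) (β := 0)
    have h2 : (fun i => (0 : K) ^ W.v i * (0 : Fin 2 → K) i) = 0 := by
      funext i
      rw [Pi.zero_apply, mul_zero]
    rw [h2, zero_pow hm.ne', zero_mul] at h1
    exact h1
  have hn := hW.n
  refine ⟨Or.inr (Or.inl one_ne_zero), fun f hf => ?_, ?_⟩
  · obtain ⟨m, hm, hh⟩ := hW.I f hf
    exact h0 f m hm hh
  · show (1 : K) ^ 2 + ev W.a1 (0 : Fin 2 → K) * 1 * 1 + ev W.a3 (0 : Fin 2 → K) * 1 =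
      1 ^ 3 + ev W.a2 (0 : Fin 2 → K) * 1 ^ 2 + ev W.a4 (0 : Fin 2 → K) * 1 + ev W.a6 (0 : Fin 2 → K)
    rw [h0 _ _ hn hW.a1, h0 _ _ (by omega) hW.a2, h0 _ _ (by omega) hW.a3, h0 _ _ (by omega) hW.a4, h0 _ _ (by omega) hW.a6]
    ring

/-- fibre products over `ℙ¹`: the alternating sums are torsion, in all characteristics, for all coefficients -/
theorem altXL_all (K : Type) [Field K] [IsAlgClosed K] {c k : ℕ} (hc : 0 < c) {n : Fin c → ℕ}
    {a1 a2 a3 a4 a6 : Fin c → MvPolynomial (Fin 2) K} (hX : (LP n a1 a2 a3 a4 a6).Ok) (hk : ∑ j, n j ≤ k)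
    {R : Fin k → Row 2 c K} (hR : ∀ i, OnLX (LP n a1 a2 a3 a4 a6) (R i)) :
    ∃ N : ℕ, 0 < N ∧ N • altX R ∈ RatLX k (LP n a1 a2 a3 a4 a6) := by
  classical
  obtain ⟨K1, _, _, _, V0, φ0, hloc, hsurj, x, hx, hx0⟩ := lift_exists K
  choose A1 A2 A3 A4 A6 hg hrd hab using fun j => lift_long (V0 := V0) (φ0 := φ0) hsurj hx hx0 (hX.n j) (hX.a1 j) (hX.a2 j) (hX.a3 j)
    (hX.a4 j) (hX.a6 j)
  have hX1 : (LP n A1 A2 A3 A4 A6).Ok := LP_ok hX.n (fun j => (hg j).1) (fun j => (hg j).2.1) (fun j => (hg j).2.2.1)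
    (fun j => (hg j).2.2.2.1) (fun j => (hg j).2.2.2.2)
  have hr : RdLX V0 φ0 (LP n A1 A2 A3 A4 A6) (LP n a1 a2 a3 a4 a6) := ⟨rfl, rfl, fun f hf => absurd hf (Set.notMem_empty f),
    fun j => (hrd j).1, fun j => (hrd j).2.1, fun j => (hrd j).2.2.1, fun j => (hrd j).2.2.2.1, fun j => (hrd j).2.2.2.2⟩
  choose Q hQ hrQ using fun i => lift_rowL hsurj hr (hR i)
  obtain ⟨N, hN, hsp⟩ := lx_spz (k := k) hX1 hX hr
  obtain ⟨N1, hN1, h1⟩ := altX_longP1 hX1 hab hc hk Q hQ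
  refine ⟨N * N1, Nat.mul_pos hN hN1, ?_⟩
  have h2 := hsp (Equiv.Perm (Fin k) × Finset (Fin k × Fin c)) Finset.univ
    (fun i => N1 * (((Equiv.Perm.sign i.1 : ℤ)) ^ c * (-1 : ℤ) ^ i.2.card))
    (fun i => rep i.2 (fun j => Q (i.1 j))) (fun i => rep i.2 (fun j => R (i.1 j))) ?_ ?_
  · rw [mul_smul, FinL_exp R, Finset.smul_sum]
    convert h2 using 3
    rw [← natCast_zsmul, smul_smul]
  · intro i _ j
    have h5 := hR (i.1 j)
    have h6 := hrQ (i.1 j)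
    refine ⟨⟨h5.ne, h5.I, fun l => ?_, fun l => ?_⟩, h6.1, fun l => ?_⟩
    · show OnL ((LP n a1 a2 a3 a4 a6).L l) (if (j, l) ∈ i.2 then o 2 K else (R (i.1 j)).P l)
      split_ifs
      · exact OnL_o (hX.L l)
      · exact h5.on l
    · show Over (LP n a1 a2 a3 a4 a6).v (R (i.1 j)).β (if (j, l) ∈ i.2 then o 2 K else (R (i.1 j)).P l).β
      split_ifs
      · exact Or.inl rfl
      · exact h5.ov l
    · show RdP V0 φ0 (if (j, l) ∈ i.2 then o 2 K1 else (Q (i.1 j)).P l) (if (j, l) ∈ i.2 then o 2 K else (R (i.1 j)).P l)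
      split_ifs
      · exact ⟨fun _ => Rd.zero, Rd.one, Rd.one⟩
      · exact h6.2 l
  · rw [FinL_exp Q, Finset.smul_sum] at h1
    convert h1 using 2
    rw [← natCast_zsmul, smul_smul]

end LWP
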