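import Pool.Agent.H71.SZ.GlueFX
import Pool.Agent.H8.LW.Tr

/-! # LWP.GlueLX : specialisation of `LW.RatLX` (as `Pool/Agent/H71/SZ/GlueFX.lean`, for the long Weierstrass form) -/

namespace LWP

open H68.BB FX SZ LW

variable {s c k : ℕ}

/-- all rows are on `X` -/
def OnLV {K F : Type} [Field K] [Field F] [Algebra K F] (X : LD K s c) (P : Vc (fun _ : Fin k × Option (Fin c) => Fin s ⊕ Fin 2) F) :
    Prop :=
  ∀ i, OnLX X (ofX P i) ∧ P (i, none) (.inr 0) = 0 ∧ P (i, none) (.inr 1) = 0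

variable {K1 K : Type} [Field K1] [Field K] {V0 : ValuationSubring K1} {φ0 : V0 →+* K}

/-- the coefficients reduce -/
def RdC (V0 : ValuationSubring K1) (φ0 : V0 →+* K) (f1 : MvPolynomial (Fin s) K1) (f : MvPolynomial (Fin s) K) : Prop :=
  ∀ m, Rd V0 φ0 (MvPolynomial.coeff m f1) (MvPolynomial.coeff m f)

/-- `W1` reduces to `W` -/
structure RdLm (V0 : ValuationSubring K1) (φ0 : V0 →+* K) (W1 : Lm K1 s) (W : Lm K s) : Prop where
  v : W1.v = W.v
  n : W1.n = W.n
  I : ∀ f ∈ W.I, ∃ f1 ∈ W1.I, RdC V0 φ0 f1 f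
  a1 : RdC V0 φ0 W1.a1 W.a1
  a2 : RdC V0 φ0 W1.a2 W.a2
  a3 : RdC V0 φ0 W1.a3 W.a3
  a4 : RdC V0 φ0 W1.a4 W.a4
  a6 : RdC V0 φ0 W1.a6 W.a6

/-- `X1` reduces to `X` -/
structure RdLX (V0 : ValuationSubring K1) (φ0 : V0 →+* K) (X1 : LD K1 s c) (X : LD K s c) : Prop where
  v : X1.v = X.v
  n : X1.n = X.n
  I : ∀ f ∈ X.I, ∃ f1 ∈ X1.I, RdC V0 φ0 f1 f
  a1 : ∀ j, RdC V0 φ0 (X1.a1 j) (X.a1 j)
  a2 : ∀ j, RdC V0 φ0 (X1.a2 j) (X.a2 j)
  a3 : ∀ j, RdC V0 φ0 (X1.a3 j) (X.a3 j)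
  a4 : ∀ j, RdC V0 φ0 (X1.a4 j) (X.a4 j)
  a6 : ∀ j, RdC V0 φ0 (X1.a6 j) (X.a6 j)

theorem RdLX.L {X1 : LD K1 s c} {X : LD K s c} (h : RdLX V0 φ0 X1 X) (j : Fin c) : RdLm V0 φ0 (X1.L j) (X.L j) :=
  ⟨h.v, congrFun h.n j, h.I, h.a1 j, h.a2 j, h.a3 j, h.a4 j, h.a6 j⟩

/-! private lemmas -/

private theorem gl_of_to {F : Type} [Zero F] (R : Fin k → Row s c F) : ofX (toX R) = R := rfl

private theorem gl_to_of {F : Type} [Zero F] {P : Vc (fun _ : Fin k × Option (Fin c) => Fin s ⊕ Fin 2) F}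
    (h : ∀ i, P (i, none) (.inr 0) = 0 ∧ P (i, none) (.inr 1) = 0) : toX (ofX P) = P := by
  funext b l
  obtain ⟨i, j⟩ := b
  rcases j with _ | j
  · rcases l with l | l
    · rfl
    · fin_cases l
      · exact (h i).1.symm
      · exact (h i).2.symm
  · rcases l with l | l
    · rfl
    · fin_cases l <;> rfl

private theorem gl_ne0 {F : Type} [Zero F] (R : Fin k → Row s c F) (i : Fin k) : toX R (i, none) ≠ 0 ↔ (R i).β ≠ 0 := by
  constructor
  · intro h h0
    apply h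
    funext l
    rcases l with l | l
    · exact congrFun h0 l
    · fin_cases l <;> rfl
  · intro h h0
    exact h (funext fun l => congrFun h0 (.inl l))

private theorem gl_ne1 {F : Type} [Zero F] (P : Vc (fun _ : Fin k × Option (Fin c) => Fin s ⊕ Fin 2) F) (i : Fin k) (j : Fin c) :
    P (i, some j) ≠ 0 ↔ ((ofX P i).P j).NZ := by
  constructor
  · intro h
    by_contra hc
    unfold ES.Pt.NZ at hc
    push Not at hc
    obtain ⟨h1, h2, h3⟩ := hc
    apply h
    funext l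
    rcases l with l | l
    · exact congrFun h1 l
    · fin_cases l
      · exact h2
      · exact h3
  · rintro (h | h | h) h0
    · exact h (funext fun l => congrFun h0 (.inl l))
    · exact h (congrFun h0 (.inr 0))
    · exact h (congrFun h0 (.inr 1))

private theorem gl_spc {X : LD K s c} {π : Place K (Om K)} {R : Fin k → Row s c (Om K)} {r : Fin k → Row s c K}
    (h : SpX X.wt π R r) : Spc (wX (k := k) X.v X.n) π.V π.φ (toX R) (toX r) := by
  intro b
  obtain ⟨i, j⟩ := b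
  rcases j with _ | j
  · obtain ⟨h1, d, hd, h2⟩ := (h i).β
    refine ⟨(gl_ne0 r i).2 h1, d, hd, fun l => ?_⟩
    rcases l with l | l
    · exact h2 l
    · have h3 : Rd π.V π.φ (d ^ 1 * (0 : Om K)) (0 : K) := by
        rw [mul_zero]
        exact Rd.zero
      fin_cases l
      · exact h3
      · exact h3
  · obtain ⟨h1, d, hd, h2, h3, h4⟩ := (h i).P j
    refine ⟨(gl_ne1 (toX r) i j).2 h1, d, hd, fun l => ?_⟩
    rcases l with l | l
    · exact h2 l
    · fin_cases l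
      · exact h3
      · exact h4

/-- the last two coordinates of the specialisation of a block `(i, none)` are zero -/
private theorem gl_zero {F1 F : Type} [Field F1] [Field F] {V : ValuationSubring F1} {ψ : V →+* F} {v : Fin s → ℕ} {n : Fin c → ℕ}
    {P : Vc (fun _ : Fin k × Option (Fin c) => Fin s ⊕ Fin 2) F1} {p : Vc (fun _ : Fin k × Option (Fin c) => Fin s ⊕ Fin 2) F}
    (hp : Spc (wX (k := k) v n) V ψ P p) (i : Fin k) (l : Fin 2) (h : P (i, none) (.inr l) = 0) : p (i, none) (.inr l) = 0 := by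
  obtain ⟨-, d, hd, h2⟩ := hp (i, none)
  have h3 := h2 (.inr l)
  rw [h, mul_zero] at h3
  exact h3.unique Rd.zero

private theorem gl_spX {X : LD K s c} {π : Place K (Om K)} {P : Vc (fun _ : Fin k × Option (Fin c) => Fin s ⊕ Fin 2) (Om K)}
    {p : Vc (fun _ : Fin k × Option (Fin c) => Fin s ⊕ Fin 2) K}
    (hz : ∀ i, P (i, none) (.inr 0) = 0 ∧ P (i, none) (.inr 1) = 0)
    (h : Spc (wX (k := k) X.v X.n) π.V π.φ P p) : SpX X.wt π (ofX P) (ofX p) := by
  have hpz : toX (ofX p) = p := gl_to_of fun i => ⟨gl_zero h i 0 (hz i).1, gl_zero h i 1 (hz i).2⟩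
  intro i
  refine ⟨?_, fun j => ?_⟩
  · obtain ⟨h1, d, hd, h2⟩ := h (i, none)
    refine ⟨(gl_ne0 (ofX p) i).1 (by rw [hpz]; exact h1), d, hd, fun l => h2 (.inl l)⟩
  · obtain ⟨h1, d, hd, h2⟩ := h (i, some j)
    exact ⟨(gl_ne1 p i j).1 h1, d, hd, fun l => h2 (.inl l), h2 (.inr 0), h2 (.inr 1)⟩

private theorem gl_mp {F G : Type} [Zero F] [Zero G] (f : F → G) (hf : f 0 = 0) (R : Fin k → Row s c F) :
    mp f (toX R) = toX (fun i => (R i).map f) := by
  funext b l
  obtain ⟨i, j⟩ := b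
  rcases j with _ | j
  · rcases l with l | l
    · rfl
    · fin_cases l
      · exact hf
      · exact hf
  · rcases l with l | l
    · rfl
    · fin_cases l <;> rfl

private theorem gl_hom {α β ι : Type} (f : α → β) (T : Finset ι) (n : ι → ℤ) (x : ι → α) :
    Finsupp.mapDomain f (∑ i ∈ T, n i • (Finsupp.single (x i) 1 : α →₀ ℤ)) =
      ∑ i ∈ T, n i • (Finsupp.single (f (x i)) 1 : β →₀ ℤ) := by
  have e := map_sum (Finsupp.mapDomain.addMonoidHom (M := ℤ) f) (fun i => n i • (Finsupp.single (x i) 1 : α →₀ ℤ)) T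
  refine e.trans (Finset.sum_congr rfl fun i _ => ?_)
  rw [map_zsmul]
  congr 1
  change Finsupp.mapDomain f (Finsupp.single (x i) 1) = _
  rw [Finsupp.mapDomain_single]

private theorem gl_sub {α β : Type} (f : α → β) (x y : α →₀ ℤ) :
    Finsupp.mapDomain f (x - y) = Finsupp.mapDomain f x - Finsupp.mapDomain f y :=
  map_sub (Finsupp.mapDomain.addMonoidHom (M := ℤ) f) x y

private theorem gl_neg {α β : Type} (f : α → β) (x : α →₀ ℤ) :
    Finsupp.mapDomain f (-x) = -Finsupp.mapDomain f x :=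
  map_neg (Finsupp.mapDomain.addMonoidHom (M := ℤ) f) x

private theorem gl_nsmul {α β : Type} (f : α → β) (N : ℕ) (x : α →₀ ℤ) :
    Finsupp.mapDomain f (N • x) = N • Finsupp.mapDomain f x :=
  map_nsmul (Finsupp.mapDomain.addMonoidHom (M := ℤ) f) N x

private theorem gl_ms {α β : Type} (f : α → β) (C : Multiset α) :
    Finsupp.mapDomain f ((C.map fun P => (Finsupp.single P 1 : α →₀ ℤ)).sum) =
      ((C.map f).map fun P => (Finsupp.single P 1 : β →₀ ℤ)).sum := by
  have h := map_multiset_sum (Finsupp.mapDomain.addMonoidHom (M := ℤ) f) (C.map fun P => (Finsupp.single P 1 : α →₀ ℤ))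
  rw [Multiset.map_map] at h
  rw [Multiset.map_map]
  refine h.trans (congrArg Multiset.sum (Multiset.map_congr rfl fun P _ => ?_))
  change Finsupp.mapDomain f (Finsupp.single P 1) = Finsupp.single (f P) 1
  rw [Finsupp.mapDomain_single]

theorem to_ratL {X : LD K s c} {z : CycX k s c K} (hz : z ∈ RatLX k X) :
    Finsupp.mapDomain toX z ∈ RatG (wX (k := k) X.v X.n) (OnLV X) := by
  unfold RatLX at hz
  induction hz using AddSubgroup.closure_induction with
  | mem z hz =>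
    obtain ⟨S, π, π', C, C', hS, hG, h1, h2, rfl⟩ := hz
    refine AddSubgroup.subset_closure ⟨S.map toX, π, π', C.map toX, C'.map toX, ?_, ?_, ?_, ?_, ?_⟩
    · intro P hP
      obtain ⟨Q, hQ, rfl⟩ := Multiset.mem_map.1 hP
      exact fun i => ⟨hS Q hQ i, rfl, rfl⟩
    · intro σ
      conv_rhs => rw [← hG σ]
      rw [Multiset.map_map, Multiset.map_map]
      exact Multiset.map_congr rfl fun P _ => gl_mp _ (map_zero σ) P
    · rw [Multiset.rel_map]
      exact Multiset.Rel.mono h1 fun P _ p _ h => gl_spc h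
    · rw [Multiset.rel_map]
      exact Multiset.Rel.mono h2 fun P _ p _ h => gl_spc h
    · rw [gl_sub]
      exact congrArg₂ (· - ·) (gl_ms toX C) (gl_ms toX C')
  | zero => rw [Finsupp.mapDomain_zero]; exact AddSubgroup.zero_mem _
  | add x y _ _ hx hy => rw [Finsupp.mapDomain_add]; exact AddSubgroup.add_mem _ hx hy
  | neg x _ hx => rw [gl_neg]; exact AddSubgroup.neg_mem _ hx

theorem of_ratL {X : LD K s c} {z : Cy (fun _ : Fin k × Option (Fin c) => Fin s ⊕ Fin 2) K}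
    (hz : z ∈ RatG (wX (k := k) X.v X.n) (OnLV X)) : Finsupp.mapDomain ofX z ∈ RatLX k X := by
  unfold RatG at hz
  induction hz using AddSubgroup.closure_induction with
  | mem z hz =>
    obtain ⟨S, π, π', C, C', hS, hG, h1, h2, rfl⟩ := hz
    refine AddSubgroup.subset_closure ⟨S.map ofX, π, π', C.map ofX, C'.map ofX, ?_, ?_, ?_, ?_, ?_⟩
    · intro P hP
      obtain ⟨Q, hQ, rfl⟩ := Multiset.mem_map.1 hP
      exact fun i => (hS Q hQ i).1
    · intro σ
      conv_rhs => rw [← hG σ]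
      rw [Multiset.map_map, Multiset.map_map]
      exact Multiset.map_congr rfl fun P _ => rfl
    · rw [Multiset.rel_map]
      exact Multiset.Rel.mono h1 fun P hP p _ h => gl_spX (fun i => (hS P hP i).2) h
    · rw [Multiset.rel_map]
      exact Multiset.Rel.mono h2 fun P hP p _ h => gl_spX (fun i => (hS P hP i).2) h
    · rw [gl_sub]
      exact congrArg₂ (· - ·) (gl_ms ofX C) (gl_ms ofX C')
  | zero => rw [Finsupp.mapDomain_zero]; exact AddSubgroup.zero_mem _
  | add x y _ _ hx hy => rw [Finsupp.mapDomain_add]; exact AddSubgroup.add_mem _ hx hy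
  | neg x _ hx => rw [gl_neg]; exact AddSubgroup.neg_mem _ hx

private theorem gl_rd_sum {F1 F : Type} [Field F1] [Field F] {V : ValuationSubring F1} {ψ : V →+* F} {ι : Type} (T : Finset ι)
    (x : ι → F1) (a : ι → F) (h : ∀ i ∈ T, Rd V ψ (x i) (a i)) : Rd V ψ (∑ i ∈ T, x i) (∑ i ∈ T, a i) := by
  classical
  induction T using Finset.induction_on with
  | empty => rw [Finset.sum_empty, Finset.sum_empty]; exact Rd.zero
  | insert i T hi ih =>
    rw [Finset.sum_insert hi, Finset.sum_insert hi]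
    exact (h i (Finset.mem_insert_self _ _)).add (ih fun j hj => h j (Finset.mem_insert_of_mem hj))

private theorem gl_rd_prod {F1 F : Type} [Field F1] [Field F] {V : ValuationSubring F1} {ψ : V →+* F} {ι : Type} (T : Finset ι)
    (x : ι → F1) (a : ι → F) (h : ∀ i ∈ T, Rd V ψ (x i) (a i)) : Rd V ψ (∏ i ∈ T, x i) (∏ i ∈ T, a i) := by
  classical
  induction T using Finset.induction_on with
  | empty => rw [Finset.prod_empty, Finset.prod_empty]; exact Rd.one
  | insert i T hi ih =>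
    rw [Finset.prod_insert hi, Finset.prod_insert hi]
    exact (h i (Finset.mem_insert_self _ _)).mul (ih fun j hj => h j (Finset.mem_insert_of_mem hj))

private theorem gl_ev {F : Type} [Field F] [Algebra K F] (f : MvPolynomial (Fin s) K) (β : Fin s → F)
    (T : Finset (Fin s →₀ ℕ)) (hT : f.support ⊆ T) :
    ES.ev f β = ∑ d ∈ T, algebraMap K F (MvPolynomial.coeff d f) * ∏ i, β i ^ d i := by
  unfold ES.ev
  rw [MvPolynomial.aeval_def, MvPolynomial.eval₂_eq']
  refine Finset.sum_subset hT fun d _ hd => ?_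
  rw [MvPolynomial.notMem_support_iff.1 hd, map_zero, zero_mul]

private theorem gl_rd_ev {F1 F : Type} [Field F1] [Field F] [Algebra K1 F1] [Algebra K F] {V : ValuationSubring F1}
    {ψ : V →+* F} (hco : ∀ a a', Rd V0 φ0 a a' → Rd V ψ (algebraMap K1 F1 a) (algebraMap K F a'))
    {f1 : MvPolynomial (Fin s) K1} {f : MvPolynomial (Fin s) K}
    (h : ∀ m, Rd V0 φ0 (MvPolynomial.coeff m f1) (MvPolynomial.coeff m f)) {β1 : Fin s → F1} {β : Fin s → F}
    (hβ : ∀ i, Rd V ψ (β1 i) (β i)) : Rd V ψ (ES.ev f1 β1) (ES.ev f β) := by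
  classical
  rw [gl_ev f1 β1 (f1.support ∪ f.support) Finset.subset_union_left,
    gl_ev f β (f1.support ∪ f.support) Finset.subset_union_right]
  refine gl_rd_sum _ _ _ fun d _ => (hco _ _ (h d)).mul (gl_rd_prod _ _ _ fun i _ => (hβ i).pow _)

/-- the specialisation of a point of `W1` is on `W` -/
private theorem gl_onW {F1 F : Type} [Field F1] [Field F] [Algebra K1 F1] [Algebra K F] {V : ValuationSubring F1}
    {ψ : V →+* F} (hco : ∀ a a', Rd V0 φ0 a a' → Rd V ψ (algebraMap K1 F1 a) (algebraMap K F a'))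
    {W1 : Lm K1 s} {W : Lm K s} (h1 : W1.Ok) (hr : RdLm V0 φ0 W1 W)
    {P : ES.Pt s F1} {p : ES.Pt s F} (hP : OnL W1 P) (hp : p.NZ) {d : F1}
    (h0' : ∀ i, Rd V ψ (d ^ W.v i * P.β i) (p.β i)) (h2' : Rd V ψ (d ^ (2 * W.n) * P.x) p.x)
    (h3' : Rd V ψ (d ^ (3 * W.n) * P.y) p.y) : OnL W p := by
  have h0 : ∀ i, Rd V ψ (d ^ W1.v i * P.β i) (p.β i) := fun i => by
    rw [hr.v]
    exact h0' i
  have h2 : Rd V ψ (d ^ (2 * W1.n) * P.x) p.x := by
    rw [hr.n]
    exact h2'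
  have h3 : Rd V ψ (d ^ (3 * W1.n) * P.y) p.y := by
    rw [hr.n]
    exact h3'
  refine ⟨hp, ?_, ?_⟩
  · intro f hf
    obtain ⟨f1, hf1, hff⟩ := hr.I f hf
    obtain ⟨m, hm, hh⟩ := h1.I f1 hf1
    have h4 := gl_rd_ev hco hff h0
    rw [ES.ev_scale hh, hP.2.1 f1 hf1, mul_zero] at h4
    exact h4.unique Rd.zero
  · have e1 := gl_rd_ev hco hr.a1 h0
    have e2 := gl_rd_ev hco hr.a2 h0
    have e3 := gl_rd_ev hco hr.a3 h0
    have e4 := gl_rd_ev hco hr.a4 h0
    have e6 := gl_rd_ev hco hr.a6 h0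
    rw [ES.ev_scale h1.a1] at e1
    rw [ES.ev_scale h1.a2] at e2
    rw [ES.ev_scale h1.a3] at e3
    rw [ES.ev_scale h1.a4] at e4
    rw [ES.ev_scale h1.a6] at e6
    have h4 := (((h2.pow 3).add (e2.mul (h2.pow 2))).add (e4.mul h2)).add e6
    have h5 := ((h3.pow 2).add ((e1.mul h2).mul h3)).add (e3.mul h3)
    have h6 : (d ^ (3 * W1.n) * P.y) ^ 2 + d ^ W1.n * ES.ev W1.a1 P.β * (d ^ (2 * W1.n) * P.x) * (d ^ (3 * W1.n) * P.y) +
        d ^ (3 * W1.n) * ES.ev W1.a3 P.β * (d ^ (3 * W1.n) * P.y) = (d ^ (2 * W1.n) * P.x) ^ 3 +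
        d ^ (2 * W1.n) * ES.ev W1.a2 P.β * (d ^ (2 * W1.n) * P.x) ^ 2 +
        d ^ (4 * W1.n) * ES.ev W1.a4 P.β * (d ^ (2 * W1.n) * P.x) + d ^ (6 * W1.n) * ES.ev W1.a6 P.β := by
      linear_combination d ^ (6 * W1.n) * hP.2.2
    rw [h6] at h5
    exact h5.unique h4

private theorem gl_mem_pow {F1 : Type} [Field F1] {V : ValuationSubring F1} {z : F1} {m : ℕ} (hm : 0 < m) (h : z ^ m ∈ V) : z ∈ V := by
  by_cases h0 : z = 0
  · rw [h0]; exact V.zero_mem
  rcases V.mem_or_inv_mem z with h1 | h1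
  · exact h1
  · obtain ⟨l, rfl⟩ : ∃ l, m = l + 1 := ⟨m - 1, by omega⟩
    have h2 : z = z ^ (l + 1) * z⁻¹ ^ l := by
      rw [pow_succ, inv_pow]
      field_simp
    rw [h2]
    exact V.mul_mem _ _ h (pow_mem h1 l)

/-- two reductions of proportional vectors are proportional -/
private theorem gl_base {F1 F : Type} [Field F1] [Field F] {V : ValuationSubring F1} {ψ : V →+* F} [IsLocalHom ψ]
    {v : Fin s → ℕ} (hv : ∀ i, 0 < v i) {β : Fin s → F1} {β0 β1 : Fin s → F} {g : F1}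
    (h0 : ∀ i, Rd V ψ (β i) (β0 i)) (hne : β0 ≠ 0) (h1 : ∀ i, Rd V ψ (g ^ v i * β i) (β1 i)) :
    ∃ e : F, ∀ i, β1 i = e ^ v i * β0 i := by
  obtain ⟨i0, hi0⟩ : ∃ i, β0 i ≠ 0 := by
    by_contra hc
    push Not at hc
    exact hne (funext hc)
  have hgm : g ∈ V := by
    refine gl_mem_pow (hv i0) ?_
    have h2 := (h1 i0).mul ((h0 i0).inv hi0)
    rw [mul_assoc, mul_inv_cancel₀ ((h0 i0).ne_zero hi0), mul_one] at h2
    exact h2.mem
  exact ⟨ψ ⟨g, hgm⟩, fun i => (h1 i).unique (((Rd.of_mem hgm).pow _).mul (h0 i))⟩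

private theorem gl_on {F1 F : Type} [Field F1] [Field F] [Algebra K1 F1] [Algebra K F] {V : ValuationSubring F1}
    {ψ : V →+* F} [IsLocalHom ψ] (hco : ∀ a a', Rd V0 φ0 a a' → Rd V ψ (algebraMap K1 F1 a) (algebraMap K F a'))
    {X1 : LD K1 s c} {X : LD K s c} (h1 : X1.Ok) (hr : RdLX V0 φ0 X1 X)
    {P : Vc (fun _ : Fin k × Option (Fin c) => Fin s ⊕ Fin 2) F1} {p : Vc (fun _ : Fin k × Option (Fin c) => Fin s ⊕ Fin 2) F}
    (hP : OnLV X1 P) (hp : Spc (wX (k := k) X.v X.n) V ψ P p) : OnLV X p := by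
  have hv : ∀ i, 0 < X.v i := fun i => by
    rw [← hr.v]
    exact h1.v i
  have hz0 : ∀ i, p (i, none) (.inr 0) = 0 := fun i => gl_zero hp i 0 (hP i).2.1
  have hz1 : ∀ i, p (i, none) (.inr 1) = 0 := fun i => gl_zero hp i 1 (hP i).2.2
  have hpz : toX (ofX p) = p := gl_to_of fun i => ⟨hz0 i, hz1 i⟩
  intro i
  refine ⟨?_, hz0 i, hz1 i⟩
  have hPi := (hP i).1
  obtain ⟨hne, e, he, hrd⟩ := hp (i, none)
  have hβne : (ofX p i).β ≠ 0 := (gl_ne0 (ofX p) i).1 (by rw [hpz]; exact hne)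
  have h0 : ∀ l, Rd V ψ (e ^ X.v l * (ofX P i).β l) ((ofX p i).β l) := fun l => hrd (.inl l)
  have h0' : ∀ l, Rd V ψ (e ^ X1.v l * (ofX P i).β l) ((ofX p i).β l) := fun l => by
    rw [hr.v]
    exact h0 l
  refine ⟨hβne, ?_, fun j => ?_, fun j => ?_⟩
  · intro f hf
    obtain ⟨f1, hf1, hff⟩ := hr.I f hf
    obtain ⟨m, hm, hh⟩ := h1.I f1 hf1
    have h4 := gl_rd_ev hco hff h0'
    rw [ES.ev_scale hh, hPi.I f1 hf1, mul_zero] at h4
    exact h4.unique Rd.zero
  · obtain ⟨hnej, d, hd, hrdj⟩ := hp (i, some j)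
    exact gl_onW hco (h1.L j) (hr.L j) (hPi.on j) ((gl_ne1 p i j).1 hnej) (fun l => hrdj (.inl l)) (hrdj (.inr 0)) (hrdj (.inr 1))
  · obtain ⟨hnej, f, hf, hrdj⟩ := hp (i, some j)
    have h2 : ∀ l, Rd V ψ (f ^ X.v l * ((ofX P i).P j).β l) (((ofX p i).P j).β l) := fun l => hrdj (.inl l)
    rcases hPi.ov j with h3 | ⟨d, hd, h3⟩
    · left
      funext l
      have h4 := h2 l
      rw [h3, Pi.zero_apply, mul_zero] at h4
      exact h4.unique Rd.zero
    · obtain ⟨g, hg⟩ := gl_base hv (g := f * d / e) h0 hβne (β1 := ((ofX p i).P j).β) (fun l => by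
        have h4 := h2 l
        have h5 : f ^ X.v l * ((ofX P i).P j).β l = (f * d / e) ^ X.v l * (e ^ X.v l * (ofX P i).β l) := by
          rw [h3]
          show f ^ X.v l * (d ^ X1.v l * (ofX P i).β l) = _
          rw [hr.v, ← mul_assoc, ← mul_assoc, ← mul_pow, ← mul_pow, div_mul_cancel₀ _ he]
        rw [h5] at h4
        exact h4)
      by_cases hg0 : g = 0
      · left
        funext l
        rw [hg l, hg0, zero_pow (hv l).ne', zero_mul]
        rfl
      · exact Or.inr ⟨g, hg0, funext hg⟩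

private theorem gl_onX_cst {X : LD K s c} {R : Row s c K} (h : OnLX X R) : OnLX X (R.map (algebraMap K (Om K))) := by
  have hinj := (algebraMap K (Om K)).injective
  refine ⟨?_, ?_, fun j => ⟨?_, ?_, ?_⟩, fun j => ?_⟩
  · intro h1
    apply h.ne
    funext i
    exact (map_eq_zero_iff _ hinj).1 (congrFun h1 i)
  · intro f hf
    show ES.ev f (fun i => algebraMap K (Om K) (R.β i)) = 0
    rw [ES.ev_cst, h.I f hf, map_zero]
  · rcases (h.on j).1 with h1 | h1 | h1
    · left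
      intro h2
      apply h1
      funext i
      exact (map_eq_zero_iff _ hinj).1 (congrFun h2 i)
    · exact Or.inr (Or.inl ((map_ne_zero_iff _ hinj).2 h1))
    · exact Or.inr (Or.inr ((map_ne_zero_iff _ hinj).2 h1))
  · intro f hf
    show ES.ev f (fun i => algebraMap K (Om K) ((R.P j).β i)) = 0
    rw [ES.ev_cst, (h.on j).2.1 f hf, map_zero]
  · have h1 := congrArg (algebraMap K (Om K)) (h.on j).2.2
    simp only [map_add, map_mul, map_pow] at h1
    show (algebraMap K (Om K) (R.P j).y) ^ 2 + ES.ev (X.a1 j) (fun i => algebraMap K (Om K) ((R.P j).β i)) * algebraMap K (Om K) (R.P j).x *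
        algebraMap K (Om K) (R.P j).y + ES.ev (X.a3 j) (fun i => algebraMap K (Om K) ((R.P j).β i)) * algebraMap K (Om K) (R.P j).y =
      (algebraMap K (Om K) (R.P j).x) ^ 3 + ES.ev (X.a2 j) (fun i => algebraMap K (Om K) ((R.P j).β i)) * algebraMap K (Om K) (R.P j).x ^ 2 +
        ES.ev (X.a4 j) (fun i => algebraMap K (Om K) ((R.P j).β i)) * algebraMap K (Om K) (R.P j).x +
        ES.ev (X.a6 j) (fun i => algebraMap K (Om K) ((R.P j).β i))
    simp only [ES.ev_cst]
    exact h1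
  · rcases h.ov j with h1 | ⟨d, hd, h1⟩
    · left
      funext i
      show algebraMap K (Om K) ((R.P j).β i) = 0
      rw [h1, Pi.zero_apply, map_zero]
    · right
      refine ⟨algebraMap K (Om K) d, (map_ne_zero_iff _ hinj).2 hd, ?_⟩
      funext i
      show algebraMap K (Om K) ((R.P j).β i) = algebraMap K (Om K) d ^ X.v i * algebraMap K (Om K) (R.β i)
      rw [h1, map_mul, map_pow]

private theorem gl_refl (X : LD K s c) : RdLX (⊤ : ValuationSubring K) ((⊤ : ValuationSubring K).subtype) X X := by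
  have h : ∀ a : K, Rd (⊤ : ValuationSubring K) ((⊤ : ValuationSubring K).subtype) a a := fun a => ⟨trivial, rfl⟩
  exact ⟨rfl, rfl, fun f hf => ⟨f, hf, fun m => h _⟩, fun j m => h _, fun j m => h _, fun j m => h _, fun j m => h _, fun j m => h _⟩

private theorem gl_cst {X : LD K s c} {p : Vc (fun _ : Fin k × Option (Fin c) => Fin s ⊕ Fin 2) K} (h : OnLV X p) :
    OnLV X (mp (algebraMap K (Om K)) p) := by
  intro i
  refine ⟨gl_onX_cst (h i).1, ?_, ?_⟩
  · change algebraMap K (Om K) (p (i, none) (.inr 0)) = 0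
    rw [(h i).2.1, map_zero]
  · change algebraMap K (Om K) (p (i, none) (.inr 1)) = 0
    rw [(h i).2.2, map_zero]

private theorem gl_sp {X : LD K s c} (hX : X.Ok) {π : Place K (Om K)}
    {P : Vc (fun _ : Fin k × Option (Fin c) => Fin s ⊕ Fin 2) (Om K)} {p : Vc (fun _ : Fin k × Option (Fin c) => Fin s ⊕ Fin 2) K}
    (hP : OnLV X P) (h : Spc (wX (k := k) X.v X.n) π.V π.φ P p) : OnLV X p := by
  have hloc : IsLocalHom π.φ := π.isLocal
  refine gl_on (V0 := ⊤) (φ0 := (⊤ : ValuationSubring K).subtype) (fun a a' ha => ?_) hX (gl_refl X) hP h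
  obtain ⟨hm, rfl⟩ := ha
  exact π.const a

private theorem gl_nz {F : Type} [Field F] [Algebra K F] {X : LD K s c} {P : Vc (fun _ : Fin k × Option (Fin c) => Fin s ⊕ Fin 2) F}
    (h : OnLV X P) : NZ P := by
  rintro ⟨i, j⟩
  rcases j with _ | j
  · have h1 := (gl_ne0 (ofX P) i).2 (h i).1.ne
    rwa [gl_to_of fun i => (h i).2] at h1
  · exact (gl_ne1 P i j).2 ((h i).1.on j).1

theorem clo_lx [IsAlgClosed K] [IsLocalHom φ0] {X1 : LD K1 s c} {X : LD K s c} (h1 : X1.Ok) (h : X.Ok) (hr : RdLX V0 φ0 X1 X) :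
    Clo (wX (k := k) X.v X.n) V0 φ0 (OnLV X1) (OnLV X) := by
  refine ⟨fun P hP => gl_nz hP, ?_, ?_, ?_, ?_⟩
  · intro E P p hP hp
    have := E.loc
    refine gl_on (fun a a' ha => ?_) h1 hr hP hp
    obtain ⟨hm, rfl⟩ := ha
    exact E.ext ⟨a, hm⟩
  · intro π P p hP hp
    exact gl_cst (gl_sp h hP hp)
  · rintro P P' hP ⟨e, he, rfl⟩ i
    have hPi := (hP i).1
    refine ⟨⟨?_, ?_, fun j => OnL_sm (h.L j) (hPi.on j) (he (i, some j)), fun j => ?_⟩, ?_, ?_⟩
    · intro h0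
      apply hPi.ne
      funext l
      exact (mul_eq_zero.1 (congrFun h0 l : e (i, none) ^ X.v l * (ofX P i).β l = 0)).resolve_left (pow_ne_zero _ (he _))
    · intro f hf
      obtain ⟨m, hm, hh⟩ := h.I f hf
      change ES.ev f (fun l => e (i, none) ^ X.v l * (ofX P i).β l) = 0
      rw [ES.ev_scale hh, hPi.I f hf, mul_zero]
    · rcases hPi.ov j with h3 | ⟨d, hd, h3⟩
      · left
        funext l
        change e (i, some j) ^ X.v l * ((ofX P i).P j).β l = 0
        rw [h3, Pi.zero_apply, mul_zero]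
      · right
        refine ⟨e (i, some j) * d / e (i, none), div_ne_zero (mul_ne_zero (he _) hd) (he _), ?_⟩
        funext l
        change e (i, some j) ^ X.v l * ((ofX P i).P j).β l =
          (e (i, some j) * d / e (i, none)) ^ X.v l * (e (i, none) ^ X.v l * (ofX P i).β l)
        rw [h3]
        change e (i, some j) ^ X.v l * (d ^ X.v l * (ofX P i).β l) = _
        rw [← mul_assoc, ← mul_assoc, ← mul_pow, ← mul_pow, div_mul_cancel₀ _ (he _)]
    · change e (i, none) ^ 1 * P (i, none) (.inr 0) = 0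
      rw [(hP i).2.1, mul_zero]
    · change e (i, none) ^ 1 * P (i, none) (.inr 1) = 0
      rw [(hP i).2.2, mul_zero]
  · intro π P p q hP hp hq
    have hp1 : OnLV X1 p := gl_sp h1 hP (by rw [hr.v, hr.n]; exact hp)
    exact gl_cst (gl_on (F1 := K1) (F := K) (V := V0) (ψ := φ0) (fun a a' ha => ha) h1 hr hp1 hq)

theorem lx_spz [IsAlgClosed K1] [IsAlgClosed K] [CharZero K1] [IsLocalHom φ0] {X1 : LD K1 s c} {X : LD K s c} (h1 : X1.Ok)
    (h : X.Ok) (hr : RdLX V0 φ0 X1 X) :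
    ∃ N : ℕ, 0 < N ∧ ∀ (ι : Type) (T : Finset ι) (n : ι → ℤ) (P : ι → Fin k → Row s c K1) (p : ι → Fin k → Row s c K),
      (∀ i ∈ T, ∀ j, OnLX X (p i j) ∧ RdR V0 φ0 (P i j) (p i j)) → ∑ i ∈ T, n i • ptX (P i) ∈ RatLX k X1 →
      N • ∑ i ∈ T, n i • ptX (p i) ∈ RatLX k X := by
  classical
  have hw : ∀ (b : Fin k × Option (Fin c)) (l : Fin s ⊕ Fin 2), 0 < wX (k := k) X.v X.n b l := by
    rintro ⟨i, j⟩ l
    rcases j with _ | j
    · rcases l with l | l
      · exact h.v l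
      · fin_cases l
        · exact one_pos
        · exact one_pos
    · have hn := h.n j
      rcases l with l | l
      · exact h.v l
      · fin_cases l
        · change 0 < 2 * X.n j
          omega
        · change 0 < 3 * X.n j
          omega
  obtain ⟨N, hN⟩ := orb_exists hw
  refine ⟨N, hN.1, ?_⟩
  intro ι T n P p hPp hz
  have hC := clo_lx (k := k) h1 h hr
  let sp : Vc (fun _ : Fin k × Option (Fin c) => Fin s ⊕ Fin 2) K1 → Vc (fun _ : Fin k × Option (Fin c) => Fin s ⊕ Fin 2) K := fun Q =>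
    if hQ : ∃ q : Vc (fun _ : Fin k × Option (Fin c) => Fin s ⊕ Fin 2) K, NZ q ∧ ∀ j i, Rd V0 φ0 (Q j i) (q j i) then hQ.choose
    else if hQ : ∃ q, Spc (wX (k := k) X.v X.n) V0 φ0 Q q then hQ.choose else 0
  have hsp : ∀ Q, NZ Q → Spc (wX (k := k) X.v X.n) V0 φ0 Q (sp Q) := by
    intro Q hQ
    by_cases h2 : ∃ q : Vc (fun _ : Fin k × Option (Fin c) => Fin s ⊕ Fin 2) K, NZ q ∧ ∀ j i, Rd V0 φ0 (Q j i) (q j i)
    · have e : sp Q = h2.choose := dif_pos h2
      rw [e]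
      exact Spc.of_rd h2.choose_spec.1 h2.choose_spec.2
    · have h3 : ∃ q, Spc (wX (k := k) X.v X.n) V0 φ0 Q q := spc_exists hw V0 φ0 hQ
      have e : sp Q = h3.choose := (dif_neg h2).trans (dif_pos h3)
      rw [e]
      exact h3.choose_spec
  have hspP : ∀ i ∈ T, sp (toX (P i)) = toX (p i) := by
    intro i hi
    have hrd : ∀ b x, Rd V0 φ0 (toX (P i) b x) (toX (p i) b x) := by
      rintro ⟨i', j⟩ x
      obtain ⟨-, h2, h3⟩ := hPp i hi i'
      rcases j with _ | j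
      · rcases x with x | x
        · exact h2 x
        · fin_cases x
          · exact Rd.zero
          · exact Rd.zero
      · rcases x with x | x
        · exact (h3 j).1 x
        · fin_cases x
          · exact (h3 j).2.1
          · exact (h3 j).2.2
    have hnz : NZ (toX (p i)) := gl_nz (X := X) fun i' => ⟨(hPp i hi i').1, rfl, rfl⟩
    have h2 : ∃ q : Vc (fun _ : Fin k × Option (Fin c) => Fin s ⊕ Fin 2) K, NZ q ∧ ∀ b x, Rd V0 φ0 (toX (P i) b x) (q b x) :=
      ⟨toX (p i), hnz, hrd⟩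
    have e : sp (toX (P i)) = h2.choose := dif_pos h2
    rw [e]
    funext b x
    exact (h2.choose_spec.2 b x).unique (hrd b x)
  have hz2 := to_ratL hz
  rw [hr.v, hr.n] at hz2
  have h5 := of_ratL (spz hw hN hC hsp hz2)
  have e1 : Finsupp.mapDomain toX (∑ i ∈ T, n i • ptX (P i)) =
      ∑ i ∈ T, n i • (Finsupp.single (toX (P i)) 1 : Cy (fun _ : Fin k × Option (Fin c) => Fin s ⊕ Fin 2) K1) :=
    gl_hom toX T n P
  have e2 : Finsupp.mapDomain sp (∑ i ∈ T, n i • (Finsupp.single (toX (P i)) 1 : Cy (fun _ : Fin k × Option (Fin c) => Fin s ⊕ Fin 2) K1)) =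
      ∑ i ∈ T, n i • (Finsupp.single (toX (p i)) 1 : Cy (fun _ : Fin k × Option (Fin c) => Fin s ⊕ Fin 2) K) := by
    rw [gl_hom]
    exact Finset.sum_congr rfl fun i hi => by rw [hspP i hi]
  rw [gl_nsmul, e1, e2, gl_hom] at h5
  exact h5

end LWP
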