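import Pool.Agent.H71.LW.GlueLX
import Pool.Agent.H71.SZ.LiftW

/-! # LWP.LiftL : lifting long Weierstrass equations and their points to characteristic zero

`lift_long`: lifts `A1, ..., A6` of `a1, ..., a6` such that `c4 ^ 3`, `c6 ^ 2` are linearly independent: if `c4 = 0` add `x X_0^(4n)` to `A4` (`x` reduces to zero, `c4` becomes `- 48 x X_0^(4n)`).  If `c4 ≠ 0` the
forms `B` with `B ^ 2 = l c4 ^ 3` for a scalar `l` are all multiples of one of them, so one of `c6`, `c6 - 864 x X_0^(6n)`, `c6 - 864 x X_1^(6n)` is not such a form; add `0`, `x X_0^(6n)` or `x X_1^(6n)` to `A6`. -/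

namespace LWP

open H68.BB FX SZ LW MvPolynomial

variable {K1 K : Type} [Field K1] [Field K] {V0 : ValuationSubring K1} {φ0 : V0 →+* K}

/-- the forms `B` with `B ^ 2 = l A` are multiples of one form -/
private theorem LiftL_line {F : Type} [Field F] [IsAlgClosed F] (A : MvPolynomial (Fin 2) F) :
    ∃ R : MvPolynomial (Fin 2) F, ∀ (B : MvPolynomial (Fin 2) F) (l : F), B ^ 2 = C l * A → ∃ r : F, B = C r * R := by
  by_cases h : ∃ (B : MvPolynomial (Fin 2) F) (l : F), B ≠ 0 ∧ B ^ 2 = C l * A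
  · obtain ⟨R, l, hR, hRl⟩ := h
    refine ⟨R, fun B m hB => ?_⟩
    have hl : l ≠ 0 := by
      rintro rfl
      rw [C_0, zero_mul] at hRl
      exact hR (eq_zero_of_pow_eq_zero hRl)
    obtain ⟨r, hr⟩ := IsAlgClosed.exists_pow_nat_eq (m / l) (n := 2) (by norm_num)
    have h1 : B ^ 2 = (C r * R) ^ 2 := by
      rw [mul_pow, ← C_pow, hr, hRl, hB, ← mul_assoc, ← C_mul, div_mul_cancel₀ _ hl]
    rcases sq_eq_sq_iff_eq_or_eq_neg.1 h1 with h2 | h2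
    · exact ⟨r, h2⟩
    · exact ⟨-r, by rw [h2, C_neg, neg_mul]⟩
  · refine ⟨0, fun B m hB => ⟨0, ?_⟩⟩
    by_contra hB0
    exact h ⟨B, m, fun h0 => hB0 (by rw [h0, mul_zero]), hB⟩

private theorem LiftL_three {F : Type} [Field F] [IsAlgClosed F] (A : MvPolynomial (Fin 2) F) (B : MvPolynomial (Fin 2) F)
    {x : F} (hx : x ≠ 0) {d : ℕ} (hd : 0 < d) :
    ∃ M : MvPolynomial (Fin 2) F, (M = 0 ∨ ∃ i : Fin 2, M = monomial (Finsupp.single i d) 1) ∧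
      ∀ l : F, (B + C x * M) ^ 2 ≠ C l * A := by
  obtain ⟨R, hR⟩ := LiftL_line A
  by_contra hc
  push Not at hc
  obtain ⟨l0, h0⟩ := hc 0 (Or.inl rfl)
  obtain ⟨l1, h1⟩ := hc (monomial (Finsupp.single 0 d) 1) (Or.inr ⟨0, rfl⟩)
  obtain ⟨l2, h2⟩ := hc (monomial (Finsupp.single 1 d) 1) (Or.inr ⟨1, rfl⟩)
  obtain ⟨r0, e0⟩ := hR _ _ h0
  obtain ⟨r1, e1⟩ := hR _ _ h1
  obtain ⟨r2, e2⟩ := hR _ _ h2
  rw [mul_zero, add_zero] at e0
  have f1 : C x * monomial (Finsupp.single (0 : Fin 2) d) (1 : F) = C (r1 - r0) * R := by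
    rw [C_sub, sub_mul, ← e1, ← e0]
    ring
  have f2 : C x * monomial (Finsupp.single (1 : Fin 2) d) (1 : F) = C (r2 - r0) * R := by
    rw [C_sub, sub_mul, ← e2, ← e0]
    ring
  have f3 : C (r2 - r0) * (C x * monomial (Finsupp.single (0 : Fin 2) d) (1 : F)) =
      C (r1 - r0) * (C x * monomial (Finsupp.single (1 : Fin 2) d) (1 : F)) := by
    rw [f1, f2]
    ring
  have hne : Finsupp.single (1 : Fin 2) d ≠ Finsupp.single (0 : Fin 2) d := by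
    intro h
    have h3 := DFunLike.congr_fun h 1
    rw [Finsupp.single_eq_same, Finsupp.single_eq_of_ne (by decide)] at h3
    omega
  have f4 := congrArg (coeff (Finsupp.single (1 : Fin 2) d)) f3
  rw [coeff_C_mul, coeff_C_mul, coeff_C_mul, coeff_C_mul, coeff_monomial, coeff_monomial, if_neg hne.symm, if_pos rfl] at f4
  have h5 : r1 - r0 = 0 := by
    have h6 : (r1 - r0) * x = 0 := by linear_combination -f4
    exact (mul_eq_zero.1 h6).resolve_right hx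
  rw [h5, C_0, zero_mul] at f1
  have f5 := congrArg (coeff (Finsupp.single (0 : Fin 2) d)) f1
  rw [coeff_C_mul, coeff_monomial, if_pos rfl, coeff_zero, mul_one] at f5
  exact hx f5

private theorem LiftL_coeff {x : K1} (hx0 : Rd V0 φ0 x 0) {d : ℕ} {M : MvPolynomial (Fin 2) K1}
    (hM : M = 0 ∨ ∃ i : Fin 2, M = monomial (Finsupp.single i d) 1) {g1 : MvPolynomial (Fin 2) K1}
    {g : MvPolynomial (Fin 2) K} (h : RdC V0 φ0 g1 g) : RdC V0 φ0 (g1 + C x * M) g := by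
  classical
  intro m
  rcases hM with rfl | ⟨i, rfl⟩
  · rw [mul_zero, add_zero]
    exact h m
  · rw [coeff_add, coeff_C_mul, coeff_monomial]
    have h0 : Rd V0 φ0 (x * if Finsupp.single i d = m then 1 else 0) 0 := by
      split_ifs
      · rw [mul_one]
        exact hx0
      · rw [mul_zero]
        exact Rd.zero
    have := (h m).add h0
    rwa [add_zero] at this

private theorem LiftL_hom {d : ℕ} {x : K1} {M : MvPolynomial (Fin 2) K1}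
    (hM : M = 0 ∨ ∃ i : Fin 2, M = monomial (Finsupp.single i d) 1) {g1 : MvPolynomial (Fin 2) K1} (h : g1.IsHomogeneous d) :
    (g1 + C x * M).IsHomogeneous d := by
  rcases hM with rfl | ⟨i, rfl⟩
  · rw [mul_zero, add_zero]
    exact h
  · refine h.add ?_
    rw [C_mul_monomial]
    exact isHomogeneous_monomial _ (by simp)

theorem lift_long [IsAlgClosed K1] [CharZero K1] (hs : Function.Surjective φ0) {x : K1} (hx : x ≠ 0) (hx0 : Rd V0 φ0 x 0) {n : ℕ}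
    (hn : 0 < n) {a1 a2 a3 a4 a6 : MvPolynomial (Fin 2) K} (h1 : a1.IsHomogeneous n) (h2 : a2.IsHomogeneous (2 * n))
    (h3 : a3.IsHomogeneous (3 * n)) (h4 : a4.IsHomogeneous (4 * n)) (h6 : a6.IsHomogeneous (6 * n)) :
    ∃ A1 A2 A3 A4 A6 : MvPolynomial (Fin 2) K1, (A1.IsHomogeneous n ∧ A2.IsHomogeneous (2 * n) ∧ A3.IsHomogeneous (3 * n) ∧
      A4.IsHomogeneous (4 * n) ∧ A6.IsHomogeneous (6 * n)) ∧ (RdC V0 φ0 A1 a1 ∧ RdC V0 φ0 A2 a2 ∧ RdC V0 φ0 A3 a3 ∧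
      RdC V0 φ0 A4 a4 ∧ RdC V0 φ0 A6 a6) ∧
      ∀ e e' : K1, e • (L1 n A1 A2 A3 A4 A6).c4 ^ 3 = e' • (L1 n A1 A2 A3 A4 A6).c6 ^ 2 → e = 0 ∧ e' = 0 := by
  classical
  obtain ⟨A1, g1, r1⟩ := lift_form (V0 := V0) (φ0 := φ0) hs h1
  obtain ⟨A2, g2, r2⟩ := lift_form (V0 := V0) (φ0 := φ0) hs h2
  obtain ⟨A3, g3, r3⟩ := lift_form (V0 := V0) (φ0 := φ0) hs h3
  obtain ⟨A4, g4, r4, hc4⟩ : ∃ A4 : MvPolynomial (Fin 2) K1, A4.IsHomogeneous (4 * n) ∧ RdC V0 φ0 A4 a4 ∧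
      (A1 ^ 2 + 4 * A2) ^ 2 - 24 * (2 * A4 + A1 * A3) ≠ 0 := by
    obtain ⟨A, g, r⟩ := lift_form (V0 := V0) (φ0 := φ0) hs h4
    by_cases h0 : (A1 ^ 2 + 4 * A2) ^ 2 - 24 * (2 * A + A1 * A3) = 0
    · refine ⟨A + C x * monomial (Finsupp.single 0 (4 * n)) 1, LiftL_hom (Or.inr ⟨0, rfl⟩) g, LiftL_coeff hx0 (Or.inr ⟨0, rfl⟩) r, ?_⟩
      intro h5
      have h6 : (48 : MvPolynomial (Fin 2) K1) * (C x * monomial (Finsupp.single 0 (4 * n)) 1) = 0 := by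
        linear_combination h0 - h5
      rcases mul_eq_zero.1 h6 with h7 | h7
      · exact absurd h7 (by norm_num)
      · rcases mul_eq_zero.1 h7 with h8 | h8
        · exact hx (C_eq_zero.1 h8)
        · exact one_ne_zero (monomial_eq_zero.1 h8)
    · exact ⟨A, g, r, h0⟩
  obtain ⟨A6, g6, r6⟩ := lift_form (V0 := V0) (φ0 := φ0) hs h6
  have hA : ((A1 ^ 2 + 4 * A2) ^ 2 - 24 * (2 * A4 + A1 * A3)) ^ 3 ≠ 0 := pow_ne_zero _ hc4
  obtain ⟨M, hM, hM2⟩ := LiftL_three (((A1 ^ 2 + 4 * A2) ^ 2 - 24 * (2 * A4 + A1 * A3)) ^ 3) (-(A1 ^ 2 + 4 * A2) ^ 3 + 36 * (A1 ^ 2 + 4 * A2) * (2 * A4 + A1 * A3) -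
    216 * (A3 ^ 2 + 4 * A6)) (x := -864 * x) (mul_ne_zero (by norm_num) hx) (d := 6 * n) (by omega)
  refine ⟨A1, A2, A3, A4, A6 + C x * M, ⟨g1, g2, g3, g4, LiftL_hom hM g6⟩, ⟨r1, r2, r3, r4, LiftL_coeff hx0 hM r6⟩, ?_⟩
  intro e e' he
  have hc4' : (L1 n A1 A2 A3 A4 (A6 + C x * M)).c4 = (A1 ^ 2 + 4 * A2) ^ 2 - 24 * (2 * A4 + A1 * A3) := rfl
  have hc6' : (L1 n A1 A2 A3 A4 (A6 + C x * M)).c6 = -(A1 ^ 2 + 4 * A2) ^ 3 + 36 * (A1 ^ 2 + 4 * A2) * (2 * A4 + A1 * A3) -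
      216 * (A3 ^ 2 + 4 * A6) + C (-864 * x) * M := by
    have h7 : (L1 n A1 A2 A3 A4 (A6 + C x * M)).c6 = -(A1 ^ 2 + 4 * A2) ^ 3 + 36 * (A1 ^ 2 + 4 * A2) * (2 * A4 + A1 * A3) -
      216 * (A3 ^ 2 + 4 * (A6 + C x * M)) := rfl
    rw [h7, C_mul, C_neg, map_ofNat]
    ring
  rw [hc4', hc6', smul_eq_C_mul, smul_eq_C_mul] at he
  have he' : e' = 0 := by
    by_contra h0
    apply hM2 (e / e')
    have h8 : C e' * (-(A1 ^ 2 + 4 * A2) ^ 3 + 36 * (A1 ^ 2 + 4 * A2) * (2 * A4 + A1 * A3) -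
        216 * (A3 ^ 2 + 4 * A6) + C (-864 * x) * M) ^ 2 = C e' * (C (e / e') *
        ((A1 ^ 2 + 4 * A2) ^ 2 - 24 * (2 * A4 + A1 * A3)) ^ 3) := by
      rw [← he, ← mul_assoc, ← C_mul, mul_div_cancel₀ _ h0]
    exact mul_left_cancel₀ (fun h9 => h0 (C_eq_zero.1 h9)) h8
  refine ⟨?_, he'⟩
  rw [he', C_0, zero_mul] at he
  exact C_eq_zero.1 ((mul_eq_zero.1 he).resolve_right hA)

private theorem LiftL_sc (hs : Function.Surjective φ0) (z : K) : ∃ u : K1, Rd V0 φ0 u z := by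
  obtain ⟨u, hu⟩ := hs z
  exact ⟨u, u.2, hu⟩

/-- lift of the root of a monic quadratic polynomial -/
private theorem LiftL_root [IsAlgClosed K1] {u r : K1} {u0 r0 y0 : K} (hu : Rd V0 φ0 u u0) (hr : Rd V0 φ0 r r0)
    (h : y0 ^ 2 + u0 * y0 = r0) : ∃ y : K1, y ^ 2 + u * y = r ∧ Rd V0 φ0 y y0 := by
  obtain ⟨y1, hy1⟩ : ∃ y : K1, y ^ 2 + u * y = r := by
    have hdeg : (Polynomial.X ^ 2 + Polynomial.C u * Polynomial.X + Polynomial.C (-r) : Polynomial K1).degree ≠ 0 := by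
      have h1 : (Polynomial.X ^ 2 + Polynomial.C u * Polynomial.X + Polynomial.C (-r) : Polynomial K1).degree = 2 := by
        have h2 := Polynomial.degree_quadratic (a := (1 : K1)) (b := u) (c := -r) one_ne_zero
        rwa [Polynomial.C_1, one_mul] at h2
      rw [h1]
      norm_num
    obtain ⟨y, hy⟩ := IsAlgClosed.exists_root _ hdeg
    refine ⟨y, ?_⟩
    have h3 : y ^ 2 + u * y + -r = 0 := by
      simpa [Polynomial.IsRoot] using hy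
    linear_combination h3
  have hmem : ∀ y : K1, y ^ 2 + u * y = r → y ∈ V0 := by
    intro y hy
    rcases V0.mem_or_inv_mem y with h1 | h1
    · exact h1
    · by_cases h0 : y = 0
      · rw [h0]; exact V0.zero_mem
      · have h2 : y = r * y⁻¹ - u := by
          rw [← hy]
          field_simp
          ring
        rw [h2]
        exact V0.sub_mem (V0.mul_mem _ _ hr.mem h1) hu.mem
  have hy2 : (-u - y1) ^ 2 + u * (-u - y1) = r := by linear_combination hy1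
  have m1 := hmem _ hy1
  have m2 := hmem _ hy2
  have d1 : Rd V0 φ0 y1 (φ0 ⟨y1, m1⟩) := Rd.of_mem m1
  have d2 : Rd V0 φ0 (-u - y1) (φ0 ⟨-u - y1, m2⟩) := Rd.of_mem m2
  have s1 : φ0 ⟨y1, m1⟩ + φ0 ⟨-u - y1, m2⟩ = -u0 := by
    have h1 := d1.add d2
    have h2 : y1 + (-u - y1) = -u := by ring
    rw [h2] at h1
    exact h1.unique hu.neg
  have s2 : φ0 ⟨y1, m1⟩ * φ0 ⟨-u - y1, m2⟩ = -r0 := by
    have h1 := d1.mul d2
    have h2 : y1 * (-u - y1) = -r := by linear_combination -hy1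
    rw [h2] at h1
    exact h1.unique hr.neg
  have h3 : (y0 - φ0 ⟨y1, m1⟩) * (y0 - φ0 ⟨-u - y1, m2⟩) = 0 := by
    linear_combination h - y0 * s1 + s2
  rcases mul_eq_zero.1 h3 with h4 | h4
  · exact ⟨y1, hy1, by rw [sub_eq_zero.1 h4]; exact d1⟩
  · exact ⟨-u - y1, hy2, by rw [sub_eq_zero.1 h4]; exact d2⟩

/-- lift of a point with given lift of the base vector -/
private theorem LiftL_over [IsAlgClosed K1] (hs : Function.Surjective φ0) {n : ℕ} {a1 a2 a3 a4 a6 : MvPolynomial (Fin 2) K}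
    {A1 A2 A3 A4 A6 : MvPolynomial (Fin 2) K1} (r1 : RdC V0 φ0 A1 a1) (r2 : RdC V0 φ0 A2 a2) (r3 : RdC V0 φ0 A3 a3)
    (r4 : RdC V0 φ0 A4 a4) (r6 : RdC V0 φ0 A6 a6)
    {p : ES.Pt 2 K} (hp : OnL (L1 n a1 a2 a3 a4 a6) p) {β1 : Fin 2 → K1} (hβ1 : ∀ i, Rd V0 φ0 (β1 i) (p.β i)) :
    ∃ P : ES.Pt 2 K1, P.β = β1 ∧ OnL (L1 n A1 A2 A3 A4 A6) P ∧ RdP V0 φ0 P p := by
  obtain ⟨hnz, _, heq⟩ := hp
  obtain ⟨x1, hx1⟩ := LiftL_sc hs p.x
  have e1 := rd_eval r1 hβ1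
  have e2 := rd_eval r2 hβ1
  have e3 := rd_eval r3 hβ1
  have e4 := rd_eval r4 hβ1
  have e6 := rd_eval r6 hβ1
  obtain ⟨y1, hy1, hy2⟩ := LiftL_root (u := ES.ev A1 β1 * x1 + ES.ev A3 β1)
    (r := x1 ^ 3 + ES.ev A2 β1 * x1 ^ 2 + ES.ev A4 β1 * x1 + ES.ev A6 β1) (y0 := p.y)
    ((e1.mul hx1).add e3) ((((hx1.pow 3).add (e2.mul (hx1.pow 2))).add (e4.mul hx1)).add e6) (by
      have h1 : p.y ^ 2 + ES.ev a1 p.β * p.x * p.y + ES.ev a3 p.β * p.y =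
        p.x ^ 3 + ES.ev a2 p.β * p.x ^ 2 + ES.ev a4 p.β * p.x + ES.ev a6 p.β := heq
      linear_combination h1)
  refine ⟨⟨β1, x1, y1⟩, rfl, ⟨?_, ?_, ?_⟩, hβ1, hx1, hy2⟩
  · rcases hnz with h | h | h
    · left
      intro h0
      apply h
      funext i
      have h1 := hβ1 i
      have h2 : β1 i = 0 := congrFun h0 i
      rw [h2] at h1
      exact h1.unique Rd.zero
    · right; left
      exact hx1.ne_zero h
    · right; right
      exact hy2.ne_zero h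
  · intro f hf
    exact absurd hf (Set.notMem_empty f)
  · show y1 ^ 2 + ES.ev A1 β1 * x1 * y1 + ES.ev A3 β1 * y1 = x1 ^ 3 + ES.ev A2 β1 * x1 ^ 2 + ES.ev A4 β1 * x1 + ES.ev A6 β1
    linear_combination hy1

theorem lift_rowL [IsAlgClosed K1] (hs : Function.Surjective φ0) {c : ℕ} {n : Fin c → ℕ}
    {a1 a2 a3 a4 a6 : Fin c → MvPolynomial (Fin 2) K} {A1 A2 A3 A4 A6 : Fin c → MvPolynomial (Fin 2) K1}
    (h : RdLX V0 φ0 (LP n A1 A2 A3 A4 A6) (LP n a1 a2 a3 a4 a6))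
    {r : Row 2 c K} (hr : OnLX (LP n a1 a2 a3 a4 a6) r) : ∃ R : Row 2 c K1, OnLX (LP n A1 A2 A3 A4 A6) R ∧ RdR V0 φ0 R r := by
  choose β1 hβ1 using fun i => LiftL_sc (V0 := V0) hs (r.β i)
  have hne : β1 ≠ 0 := by
    intro h0
    apply hr.ne
    funext i
    have h1 := hβ1 i
    have h2 : β1 i = 0 := congrFun h0 i
    rw [h2] at h1
    exact h1.unique Rd.zero
  have key : ∀ j, ∃ P : ES.Pt 2 K1, OnL ((LP n A1 A2 A3 A4 A6).L j) P ∧ RdP V0 φ0 P (r.P j) ∧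
      Over (fun _ => 1) β1 P.β := by
    intro j
    rcases hr.ov j with h2 | ⟨d, hd, h2⟩
    · obtain ⟨P, hP, h3, h4⟩ := LiftL_over (n := n j) hs (h.a1 j) (h.a2 j) (h.a3 j) (h.a4 j) (h.a6 j) (hr.on j) (β1 := 0) fun i => by
        rw [h2]
        exact Rd.zero
      exact ⟨P, h3, h4, Or.inl hP⟩
    · obtain ⟨d1, hd1⟩ := LiftL_sc (V0 := V0) hs d
      obtain ⟨P, hP, h3, h4⟩ := LiftL_over (n := n j) hs (h.a1 j) (h.a2 j) (h.a3 j) (h.a4 j) (h.a6 j) (hr.on j)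
        (β1 := fun i => d1 ^ 1 * β1 i) fun i => by
          rw [h2]
          exact (hd1.pow 1).mul (hβ1 i)
      exact ⟨P, h3, h4, Or.inr ⟨d1, hd1.ne_zero hd, hP⟩⟩
  choose P hP1 hP2 hP3 using key
  exact ⟨⟨β1, P⟩, ⟨hne, fun f hf => absurd hf (Set.notMem_empty f), hP1, hP3⟩, hβ1, hP2⟩

end LWP
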